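import Pool.Agent.Helper2.RG.Base

set_option autoImplicit false

open scoped Pointwise NumberField
open NumberField Pool.RG

namespace Pool.Agent.Helper47.RG

private theorem comap_GOODA (F L : IntermediateField ℚ Qb) (h : F ≤ L) :
    (IntermediateField.extendScalars h).fixingSubgroup.comap
      (IntermediateField.fixingSubgroupEquiv F).toMonoidHom = (GF L).subgroupOf (GF F) := by
  ext ⟨g, hg⟩
  rw [Subgroup.mem_comap, Subgroup.mem_subgroupOf, IntermediateField.mem_fixingSubgroup_iff, mem_GF]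
  rfl

private theorem finrank_GOODA (F L : IntermediateField ℚ Qb) (h : F ≤ L) :
    Module.finrank F (IntermediateField.extendScalars h) = (GF L).relIndex (GF F) := by
  haveI : IsGalois F Qb := IsGalois.tower_top_intermediateField F
  rw [IntermediateField.finrank_eq_fixingSubgroup_index, Subgroup.relIndex, ← comap_GOODA F L h]
  exact (Subgroup.index_comap_of_surjective _
    (IntermediateField.fixingSubgroupEquiv F).surjective).symm

private theorem galois_GOODA (F L : IntermediateField ℚ Qb) (h : F ≤ L)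
    (hn : ∀ g ∈ GF F, ∀ n ∈ GF L, g * n * g⁻¹ ∈ GF L) :
    IsGalois F (IntermediateField.extendScalars h) := by
  haveI : IsGalois F Qb := IsGalois.tower_top_intermediateField F
  rw [← InfiniteGalois.normal_iff_isGalois]
  have h1 : ((GF L).subgroupOf (GF F)).Normal := by
    constructor
    rintro ⟨n, hn1⟩ hn2 ⟨g, hg⟩
    rw [Subgroup.mem_subgroupOf] at hn2 ⊢
    exact hn g hg n hn2
  have h2 := h1.map (IntermediateField.fixingSubgroupEquiv F).toMonoidHom
    (IntermediateField.fixingSubgroupEquiv F).surjective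
  rw [← comap_GOODA F L h, Subgroup.map_comap_eq_self_of_surjective
    (IntermediateField.fixingSubgroupEquiv F).surjective] at h2
  exact h2

private theorem finite_GOODA (K : Type) [Field K] [NumberField K] (S : Finset ℕ)
    (hS : ∀ p ∈ S, p.Prime) :
    {q : Ideal (𝓞 K) | q.IsMaximal ∧ ∃ p ∈ S, (p : 𝓞 K) ∈ q}.Finite := by
  have hsub : {q : Ideal (𝓞 K) | q.IsMaximal ∧ ∃ p ∈ S, (p : 𝓞 K) ∈ q} ⊆
      ⋃ p ∈ (S : Set ℕ), (fun v : IsDedekindDomain.HeightOneSpectrum (𝓞 K) => v.asIdeal) ''
        {v | v.asIdeal ∣ Ideal.span {(p : 𝓞 K)}} := by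
    rintro q ⟨hq, p, hp, hpq⟩
    rw [Set.mem_iUnion₂]
    refine ⟨p, hp, ⟨q, hq.isPrime, ?_⟩, ?_, rfl⟩
    · rintro rfl
      rw [Ideal.mem_bot] at hpq
      exact (hS p hp).ne_zero (by exact_mod_cast hpq)
    · simp only [Set.mem_ofPred_eq]
      rw [Ideal.dvd_span_singleton]
      exact hpq
  refine Set.Finite.subset (Set.Finite.biUnion S.finite_toSet fun p hp => Set.Finite.image _
    (Ideal.finite_factors ?_)) hsub
  intro h
  rw [Ideal.zero_eq_bot, Ideal.span_singleton_eq_bot] at h
  exact (hS p hp).ne_zero (by exact_mod_cast h)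

theorem tGoodA (hL : StLift) (hC : StConj) (hO : StOne) (hH : StH) : StGoodA := by
  intro l S F _ P0 hl hS hP0 hlP0 hA N hNF hnorm hopen hidx hin hdec
  obtain ⟨hA1, hA2, hA3, hA4, hA5⟩ := hA
  obtain ⟨L, hLd⟩ : ∃ L : IntermediateField ℚ Qb, L = IntermediateField.fixedField N := ⟨_, rfl⟩
  have hGL : GF L = N := by
    rw [hLd]
    exact InfiniteGalois.fixingSubgroup_fixedField
      (⟨N, Subgroup.isClosed_of_isOpen N hopen⟩ : ClosedSubgroup GQ)
  have hFL : F ≤ L := by
    rw [hLd]
    exact (IntermediateField.le_iff_le _ _).2 hNF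
  have hnorm' : ∀ g ∈ GF F, ∀ n ∈ GF L, g * n * g⁻¹ ∈ GF L := by rw [hGL]; exact hnorm
  haveI : IsGalois F Qb := IsGalois.tower_top_intermediateField F
  have hfr : Module.finrank F (IntermediateField.extendScalars hFL) = l := by
    rw [finrank_GOODA F L hFL, hGL, hidx]
  haveI hfd : FiniteDimensional F (IntermediateField.extendScalars hFL) :=
    Module.finite_of_finrank_pos (by rw [hfr]; exact hl.pos)
  haveI hnf : NumberField (IntermediateField.extendScalars hFL) :=
    NumberField.of_module_finite F (IntermediateField.extendScalars hFL)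
  haveI hgal : IsGalois F (IntermediateField.extendScalars hFL) := galois_GOODA F L hFL hnorm'
  have hfin := finite_GOODA F S hS
  refine hH F (IntermediateField.extendScalars hFL) l hl hfr hA3 hA2 hfin.toFinset ?_ ?_ ?_
  · intro q hq
    rw [Set.Finite.mem_toFinset] at hq
    exact ⟨hq.1, hA4 q hq.1 hq.2⟩
  · intro x
    obtain ⟨u, hu⟩ := hA5 x
    refine ⟨u, fun q hq => ?_⟩
    rw [Set.Finite.mem_toFinset] at hq
    exact hu q hq.1 hq.2
  · intro P' hP' hT
    rw [Subgroup.eq_bot_iff_forall]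
    intro s hs
    obtain ⟨τ', hτ'⟩ := AlgEquiv.restrictNormalHom_surjective (F := F)
      (K₁ := IntermediateField.extendScalars hFL) Qb s
    haveI : Algebra.IsIntegral (𝓞 (IntermediateField.extendScalars hFL)) (𝓞 Qb) :=
      RingOfIntegers.extension_algebra_isIntegral _ _
    haveI : Algebra.IsIntegral (𝓞 F) (𝓞 (IntermediateField.extendScalars hFL)) :=
      RingOfIntegers.extension_algebra_isIntegral _ _
    obtain ⟨P, hP, hPP'⟩ := Ideal.exists_ideal_over_maximal_of_isIntegral (S := 𝓞 Qb) P' (by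
      rw [(RingHom.injective_iff_ker_eq_bot _).1
        (RingOfIntegers.algebraMap.injective (IntermediateField.extendScalars hFL) Qb)]
      exact bot_le)
    obtain ⟨τ, hτ⟩ : ∃ τ : GQ, τ = AlgEquiv.restrictScalars ℚ τ' := ⟨_, rfl⟩
    have hτx : ∀ x : Qb, τ x = τ' x := fun x => by rw [hτ]; rfl
    have hτF : τ ∈ GF F := by
      rw [mem_GF]
      intro x hx
      rw [hτx]
      exact τ'.commutes ⟨x, hx⟩
    have hcomm : ∀ x : IntermediateField.extendScalars hFL, τ (x : Qb) = ((s x : _) : Qb) := by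
      intro x
      rw [hτx, ← hτ']
      exact (AlgEquiv.restrictNormal_commutes τ' (IntermediateField.extendScalars hFL) x).symm
    have hτP : ∀ x : 𝓞 Qb, (x : Qb) ∈ L → τ • x - x ∈ P := by
      intro x hx
      have hxi : IsIntegral ℤ (⟨(x : Qb), hx⟩ : IntermediateField.extendScalars hFL) := by
        have h1 : IsIntegral ℤ (x : Qb) := x.2
        exact (isIntegral_algebraMap_iff (B := Qb)
          (algebraMap (IntermediateField.extendScalars hFL) Qb).injective).1 h1
      obtain ⟨y, hy⟩ : ∃ y : 𝓞 (IntermediateField.extendScalars hFL),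
        y = ⟨⟨(x : Qb), hx⟩, hxi⟩ := ⟨_, rfl⟩
      have h1 : s • y - y ∈ P' := hs y
      rw [← hPP', Ideal.mem_comap, map_sub] at h1
      have h2 : algebraMap (𝓞 (IntermediateField.extendScalars hFL)) (𝓞 Qb) y = x := by
        rw [hy]
        rfl
      have h3 : algebraMap (𝓞 (IntermediateField.extendScalars hFL)) (𝓞 Qb) (s • y) = τ • x := by
        apply RingOfIntegers.ext
        rw [coe_smul']
        have h4 := hcomm ⟨(x : Qb), hx⟩
        rw [hy]
        exact h4.symm
      rw [h2, h3] at h1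
      exact h1
    obtain ⟨σ, ⟨hσF, hσI⟩, hστ⟩ := hL F L hFL hnorm' P hP τ hτF hτP
    have hσN : σ ∈ N := by
      by_cases hlP : (l : 𝓞 Qb) ∈ P
      · obtain ⟨h, hhF, hh⟩ := hO l F hl hA1 P P0 hP hP0 hlP hlP0
        obtain ⟨hC1, _, _, _, _⟩ := hC P
        obtain ⟨_, _, _, hC4, _⟩ := hC P0
        have h1 : h * σ * h⁻¹ ∈ Ine P0 := by
          rw [← hh]
          exact hC1 h σ hσI
        have h2 : h * σ * h⁻¹ ∈ N :=
          hdec (Subgroup.mem_inf.2
            ⟨(GF F).mul_mem ((GF F).mul_mem hhF hσF) ((GF F).inv_mem hhF), hC4 h1⟩)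
        have h3 := hnorm h⁻¹ (inv_mem hhF) _ h2
        have h4 : h⁻¹ * (h * σ * h⁻¹) * h⁻¹⁻¹ = σ := by group
        rwa [h4] at h3
      · refine hin P ⟨hP, hlP, ?_⟩ ⟨hσF, hσI⟩
        intro p hp hpP
        apply hT
        rw [Set.Finite.mem_toFinset]
        haveI := hP'
        refine ⟨Ideal.isMaximal_comap_of_isIntegral_of_isMaximal P', p, hp, ?_⟩
        rw [Ideal.mem_comap, map_natCast, ← hPP', Ideal.mem_comap, map_natCast]
        exact hpP
    have hτN : τ ∈ GF L := by
      have h1 : τ = σ * (σ⁻¹ * τ) := by group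
      rw [h1]
      refine mul_mem ?_ hστ
      rw [hGL]
      exact hσN
    ext x
    have h1 : τ (x : Qb) = x := (mem_GF L τ).1 hτN x x.2
    rw [hcomm x] at h1
    exact h1

end Pool.Agent.Helper47.RG
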